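import Pool.Agent.Q50.EX.Spec

/-! Jobs J4 and J5 of project EX: chains of vectors. -/

namespace Pool.Agent.Q61.EX

open Module Pool.Agent.Q50.EX
open scoped Classical

/-- the trace zero matrices are generated by the neighbouring matrix units -/
lemma sl_mem {K : Type} [Field K] {m : ℕ} (L : Submodule K (Matrix (Fin m) (Fin m) K))
    (hL : ∀ x ∈ L, ∀ y ∈ L, x * y - y * x ∈ L)
    (hup : ∀ i j : Fin m, (i : ℕ) + 1 = j → Matrix.single i j (1 : K) ∈ L)
    (hdn : ∀ i j : Fin m, (i : ℕ) + 1 = j → Matrix.single j i (1 : K) ∈ L)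
    (z : Matrix (Fin m) (Fin m) K) (hz : z.trace = 0) : z ∈ L := by
  have hbr : ∀ i j k : Fin m, i ≠ k → Matrix.single i j (1 : K) ∈ L →
      Matrix.single j k (1 : K) ∈ L → Matrix.single i k (1 : K) ∈ L := by
    intro i j k hik h1 h2
    have h3 := hL _ h1 _ h2
    rw [Matrix.single_mul_single_same, Matrix.single_mul_single_of_ne _ _ _ _ hik.symm,
      mul_one, sub_zero] at h3
    exact h3
  have hoff : ∀ d : ℕ, ∀ i j : Fin m, (i : ℕ) + (d + 1) = j →
      Matrix.single i j (1 : K) ∈ L ∧ Matrix.single j i (1 : K) ∈ L := by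
    intro d
    induction d with
    | zero => exact fun i j h => ⟨hup i j h, hdn i j h⟩
    | succ d ih =>
      intro i j h
      have hj := j.2
      set k : Fin m := ⟨(i : ℕ) + (d + 1), by omega⟩ with hk
      have hk' : (k : ℕ) = (i : ℕ) + (d + 1) := rfl
      have h1 := ih i k rfl
      have h2 : (k : ℕ) + 1 = j := by omega
      have hij : i ≠ j := by
        intro h'
        have := congrArg Fin.val h'
        omega
      exact ⟨hbr i k j hij h1.1 (hup k j h2), hbr j k i hij.symm (hdn k j h2) h1.2⟩
  have hne : ∀ i j : Fin m, i ≠ j → Matrix.single i j (1 : K) ∈ L := by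
    intro i j hij
    rcases lt_or_gt_of_ne hij with h | h
    · exact (hoff ((j : ℕ) - i - 1) i j (by have := Fin.lt_def.1 h; omega)).1
    · exact (hoff ((i : ℕ) - j - 1) j i (by have := Fin.lt_def.1 h; omega)).2
  have hdiag : ∀ i j : Fin m, Matrix.single i i (1 : K) - Matrix.single j j (1 : K) ∈ L := by
    intro i j
    by_cases hij : i = j
    · rw [hij, sub_self]; exact L.zero_mem
    · have h3 := hL _ (hne i j hij) _ (hne j i (Ne.symm hij))
      rw [Matrix.single_mul_single_same, Matrix.single_mul_single_same, mul_one] at h3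
      exact h3
  rcases Nat.eq_zero_or_pos m with hm | hm
  · subst hm
    have : z = 0 := by ext i; exact i.elim0
    rw [this]; exact L.zero_mem
  set o : Fin m := ⟨0, hm⟩
  have hsum : z = ∑ i, ∑ j, (z i j • (if i = j then Matrix.single i i (1 : K) - Matrix.single o o (1 : K)
      else Matrix.single i j (1 : K))) := by
    have h1 : ∀ i j : Fin m, z i j • (if i = j then Matrix.single i i (1 : K) -
        Matrix.single o o (1 : K) else Matrix.single i j (1 : K)) =
        Matrix.single i j (z i j) - (if i = j then z i i • Matrix.single o o (1 : K) else 0) := by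
      intro i j
      by_cases hij : i = j
      · subst hij
        rw [if_pos rfl, if_pos rfl, smul_sub, Matrix.smul_single, smul_eq_mul, mul_one]
      · rw [if_neg hij, if_neg hij, sub_zero, Matrix.smul_single, smul_eq_mul, mul_one]
    simp only [h1, Finset.sum_sub_distrib, Finset.sum_ite_eq, Finset.mem_univ, if_true]
    rw [← Finset.sum_smul]
    have h2 : ∑ i, z i i = 0 := hz
    rw [h2, zero_smul, sub_zero]
    exact Matrix.matrix_eq_sum_single z
  rw [hsum]
  refine L.sum_mem fun i _ => L.sum_mem fun j _ => L.smul_mem _ ?_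
  by_cases hij : i = j
  · rw [if_pos hij]; exact hdiag i o
  · rw [if_neg hij]; exact hne i j hij

/-- the action of `f i` on a vector of the chain -/
lemma f_ap {K W ι : Type} [Field K] [AddCommGroup W] [Module K W]
    {e f : ι → Module.End K W} {w : ℕ → W} {l : ℕ → ι} {p : ℕ → K} {m : ℕ}
    (h : Chain e f w l p m) (i : ι) (a : ℕ) (ha : a < m) :
    f i (w a) = if a + 1 < m ∧ l a = i then w (a + 1) else 0 := by
  by_cases h1 : a + 1 < m
  · by_cases h2 : l a = i
    · rw [if_pos ⟨h1, h2⟩, ← h2]; exact h.f_same a h1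
    · rw [if_neg fun h' => h2 h'.2]; exact h.f_ne a h1 i (Ne.symm h2)
  · rw [if_neg fun h' => h1 h'.1]
    have h3 : a = m - 1 := by omega
    rw [h3]; exact h.f_last i

/-- the action of `e i` on a vector of the chain -/
lemma e_ap {K W ι : Type} [Field K] [AddCommGroup W] [Module K W]
    {e f : ι → Module.End K W} {w : ℕ → W} {l : ℕ → ι} {p : ℕ → K} {m : ℕ}
    (h : Chain e f w l p m) (i : ι) (a : ℕ) (ha : a < m) :
    e i (w a) = if 0 < a ∧ l (a - 1) = i then p (a - 1) • w (a - 1) else 0 := by
  rcases Nat.eq_zero_or_pos a with h0 | h0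
  · subst h0
    rw [if_neg fun h' => lt_irrefl _ h'.1]; exact h.e_zero i
  · obtain ⟨b, rfl⟩ : ∃ b, a = b + 1 := ⟨a - 1, by omega⟩
    rw [Nat.add_sub_cancel]
    by_cases h2 : l b = i
    · rw [if_pos ⟨h0, h2⟩, ← h2]; exact h.e_same b ha
    · rw [if_neg fun h' => h2 h'.2]; exact h.e_ne b ha i (Ne.symm h2)

theorem s4 : S4 := by
  intro K W ι _ _ _ _ e f w l p m hc hinj L hL he hf z hz
  set b : Basis (Fin m) K W := Basis.mk hc.indep hc.span.ge with hb
  have hbw : ∀ i : Fin m, b i = w i := fun i => Basis.mk_apply _ _ _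
  have hmem : LinearMap.toMatrix b b z ∈ L.comap (Matrix.toLin b b).toLinearMap := by
    refine sl_mem _ ?_ ?_ ?_ _ ?_
    · intro x hx y hy
      rw [Submodule.mem_comap] at hx hy ⊢
      have h1 := hL _ hx _ hy
      have h2 : (Matrix.toLin b b).toLinearMap (x * y - y * x) =
          (Matrix.toLin b b).toLinearMap x * (Matrix.toLin b b).toLinearMap y -
          (Matrix.toLin b b).toLinearMap y * (Matrix.toLin b b).toLinearMap x := by
        rw [map_sub]
        simp only [LinearEquiv.coe_coe]
        rw [Matrix.toLin_mul b b b, Matrix.toLin_mul b b b]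
        rfl
      rw [h2]; exact h1
    · intro i j hij
      rw [Submodule.mem_comap]
      have hj := j.2
      have h1 : i.1 + 1 < m := by omega
      have h2 : (Matrix.toLin b b).toLinearMap (Matrix.single i j (1 : K)) =
          (p i)⁻¹ • e (l i) := by
        refine b.ext fun a => ?_
        rw [LinearEquiv.coe_coe, Matrix.toLin_self, LinearMap.smul_apply, hbw, e_ap hc _ _ a.2]
        by_cases haj : j = a
        · subst haj
          rw [Finset.sum_eq_single i]
          · have h3 : (j : ℕ) - 1 = i := by omega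
            rw [if_pos ⟨by omega, by rw [h3]⟩, h3, Matrix.single_apply_same, one_smul, smul_smul,
              inv_mul_cancel₀ (hc.p_ne i h1), one_smul, hbw]
          · intro k _ hk
            rw [Matrix.single_apply_of_ne _ _ _ _ _ fun h' => hk h'.1.symm, zero_smul]
          · intro h'; exact absurd (Finset.mem_univ _) h'
        · rw [Finset.sum_eq_zero, if_neg, smul_zero]
          · rintro ⟨h3, h4⟩
            have h5 := hinj _ _ (by have := a.2; omega) h1 h4
            exact haj (Fin.ext (by omega))
          · intro k _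
            rw [Matrix.single_apply_of_ne _ _ _ _ _ fun h' => haj h'.2, zero_smul]
      rw [h2]; exact L.smul_mem _ (he _)
    · intro i j hij
      rw [Submodule.mem_comap]
      have hj := j.2
      have h1 : i.1 + 1 < m := by omega
      have h2 : (Matrix.toLin b b).toLinearMap (Matrix.single j i (1 : K)) = f (l i) := by
        refine b.ext fun a => ?_
        rw [LinearEquiv.coe_coe, Matrix.toLin_self, hbw, f_ap hc _ _ a.2]
        by_cases haj : i = a
        · subst haj
          rw [Finset.sum_eq_single j]
          · rw [if_pos ⟨h1, rfl⟩, Matrix.single_apply_same, one_smul, hbw, hij]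
          · intro k _ hk
            rw [Matrix.single_apply_of_ne _ _ _ _ _ fun h' => hk h'.1.symm, zero_smul]
          · intro h'; exact absurd (Finset.mem_univ _) h'
        · rw [Finset.sum_eq_zero, if_neg]
          · rintro ⟨h3, h4⟩
            have h5 := hinj _ _ h3 h1 h4
            exact haj (Fin.ext h5.symm)
          · intro k _
            rw [Matrix.single_apply_of_ne _ _ _ _ _ fun h' => haj h'.2, zero_smul]
      rw [h2]; exact hf _
    · rw [← hz, LinearMap.trace_eq_matrix_trace K b]
  rw [Submodule.mem_comap, LinearEquiv.coe_coe, Matrix.toLin_toMatrix] at hmem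
  exact hmem

theorem s5 : S5 := by
  intro K W ι _ _ _ _ _ e f w l p m hc hm hpal
  set b : Basis (Fin m) K W := Basis.mk hc.indep hc.span.ge with hb
  have hbw : ∀ i : Fin m, b i = w i := fun i => Basis.mk_apply _ _ _
  set M : Matrix (Fin m) (Fin m) K := Matrix.of fun i j =>
    if (i : ℕ) + j + 1 = m then (-1 : K) ^ (i : ℕ) else 0 with hM
  set B : W →ₗ[K] W →ₗ[K] K := Matrix.toLinearMap₂ b b M with hB
  have hBb : ∀ i j : Fin m, B (b i) (b j) = if (i : ℕ) + j + 1 = m then (-1 : K) ^ (i : ℕ) else 0 := by
    intro i j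
    rw [hB, Matrix.toLinearMap₂_apply_basis, hM, Matrix.of_apply]
  have hBw : ∀ i j : ℕ, i < m → j < m → B (w i) (w j) =
      if i + j + 1 = m then (-1 : K) ^ i else 0 := by
    intro i j hi hj
    have := hBb ⟨i, hi⟩ ⟨j, hj⟩
    rw [hbw, hbw] at this
    exact this
  refine ⟨B, ?_, ?_, ?_⟩
  · intro u v
    have h1 : B = B.flip := by
      refine b.ext fun i => b.ext fun j => ?_
      rw [LinearMap.flip_apply, hBb, hBb]
      by_cases h : (i : ℕ) + j + 1 = m
      · rw [if_pos h, if_pos (by omega)]
        obtain ⟨q, hq⟩ := hm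
        have h2 : (-1 : K) ^ (i : ℕ) * (-1 : K) ^ (j : ℕ) = 1 := by
          rw [← pow_add, show (i : ℕ) + j = 2 * q by omega, pow_mul, neg_one_sq, one_pow]
        have h3 : (-1 : K) ^ (j : ℕ) * (-1 : K) ^ (j : ℕ) = 1 := by
          rw [← pow_add, ← two_mul, pow_mul, neg_one_sq, one_pow]
        calc (-1 : K) ^ (i : ℕ) = (-1 : K) ^ (i : ℕ) * ((-1 : K) ^ (j : ℕ) * (-1 : K) ^ (j : ℕ)) := by
              rw [h3, mul_one]
          _ = (-1 : K) ^ (j : ℕ) := by rw [← mul_assoc, h2, one_mul]
      · rw [if_neg h, if_neg (by omega)]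
    have h2 := congrArg (fun C => C u v) h1
    exact h2
  · intro u hu
    have h1 : ∀ i : Fin m, b.repr u i = 0 := by
      intro i
      have hi := i.2
      set j : Fin m := ⟨m - 1 - i, by omega⟩ with hj
      have hj' : (j : ℕ) = m - 1 - i := rfl
      have h2 := hu (b j)
      rw [← b.sum_repr u] at h2
      simp only [map_sum, map_smul, LinearMap.sum_apply, LinearMap.smul_apply] at h2
      rw [Finset.sum_eq_single i] at h2
      · rw [hBb, if_pos (by omega), smul_eq_mul] at h2
        rcases mul_eq_zero.1 h2 with h3 | h3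
        · exact h3
        · exact absurd h3 (pow_ne_zero _ (neg_ne_zero.2 one_ne_zero))
      · intro k _ hk
        rw [hBb, if_neg, smul_zero]
        intro h3
        exact hk (Fin.ext (by omega))
      · intro h'; exact absurd (Finset.mem_univ _) h'
    have h2 : b.repr u = 0 := Finsupp.ext h1
    exact (LinearEquiv.map_eq_zero_iff _).1 h2
  · intro i u v
    constructor
    · have h1 : B.comp (e i) + (B.flip.comp (e i)).flip = 0 := by
        refine b.ext fun a => b.ext fun c => ?_
        rw [LinearMap.add_apply, LinearMap.add_apply, LinearMap.comp_apply, LinearMap.flip_apply,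
          LinearMap.comp_apply, LinearMap.flip_apply, LinearMap.zero_apply, LinearMap.zero_apply]
        have ha := a.2
        have hc' := c.2
        rw [hbw, hbw, e_ap hc i a ha, e_ap hc i c hc']
        by_cases h2 : (a : ℕ) + c = m
        · have h3 : l ((a : ℕ) - 1) = l ((c : ℕ) - 1) ∧ p ((a : ℕ) - 1) = p ((c : ℕ) - 1) := by
            have := hpal ((a : ℕ) - 1) (by omega)
            rwa [show m - 2 - ((a : ℕ) - 1) = (c : ℕ) - 1 by omega] at this
          by_cases h4 : l ((c : ℕ) - 1) = i
          · rw [if_pos ⟨by omega, h3.1.trans h4⟩, if_pos ⟨by omega, h4⟩, map_smul,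
              LinearMap.smul_apply, map_smul, hBw _ _ (by omega) hc', hBw _ _ ha (by omega),
              if_pos (by omega), if_pos (by omega), h3.2, ← smul_add]
            obtain ⟨a', ha'⟩ : ∃ a' : ℕ, (a : ℕ) = a' + 1 := ⟨(a : ℕ) - 1, by omega⟩
            rw [ha', Nat.add_sub_cancel, pow_succ, mul_neg_one, add_neg_cancel, smul_zero]
          · rw [if_neg (fun h' => h4 (h3.1.symm.trans h'.2)), if_neg (fun h' => h4 h'.2), map_zero,
              LinearMap.zero_apply, map_zero, add_zero]
        · have h3 : B (if 0 < (a : ℕ) ∧ l ((a : ℕ) - 1) = i then p ((a : ℕ) - 1) • w ((a : ℕ) - 1)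
              else 0) (w c) = 0 := by
            by_cases h4 : 0 < (a : ℕ) ∧ l ((a : ℕ) - 1) = i
            · rw [if_pos h4, map_smul, LinearMap.smul_apply, hBw _ _ (by omega) hc',
                if_neg (by omega), smul_zero]
            · rw [if_neg h4, map_zero, LinearMap.zero_apply]
          have h4 : B (w a) (if 0 < (c : ℕ) ∧ l ((c : ℕ) - 1) = i then
              p ((c : ℕ) - 1) • w ((c : ℕ) - 1) else 0) = 0 := by
            by_cases h5 : 0 < (c : ℕ) ∧ l ((c : ℕ) - 1) = i
            · rw [if_pos h5, map_smul, hBw _ _ ha (by omega),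
                if_neg (by omega), smul_zero]
            · rw [if_neg h5, map_zero]
          rw [h3, h4, add_zero]
      have h2 := congrArg (fun C => C u v) h1
      exact h2
    · have h1 : B.comp (f i) + (B.flip.comp (f i)).flip = 0 := by
        refine b.ext fun a => b.ext fun c => ?_
        rw [LinearMap.add_apply, LinearMap.add_apply, LinearMap.comp_apply, LinearMap.flip_apply,
          LinearMap.comp_apply, LinearMap.flip_apply, LinearMap.zero_apply, LinearMap.zero_apply]
        have ha := a.2
        have hc' := c.2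
        rw [hbw, hbw, f_ap hc i a ha, f_ap hc i c hc']
        by_cases h2 : (a : ℕ) + c + 2 = m
        · have h3 : l (a : ℕ) = l (c : ℕ) := by
            have := (hpal (a : ℕ) (by omega)).1
            rwa [show m - 2 - (a : ℕ) = (c : ℕ) by omega] at this
          by_cases h4 : l (c : ℕ) = i
          · rw [if_pos ⟨by omega, h3.trans h4⟩, if_pos ⟨by omega, h4⟩,
              hBw _ _ (by omega) hc', hBw _ _ ha (by omega),
              if_pos (by omega), if_pos (by omega), pow_succ, mul_neg_one, neg_add_cancel]
          · rw [if_neg (fun h' => h4 (h3.symm.trans h'.2)), if_neg (fun h' => h4 h'.2), map_zero,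
              LinearMap.zero_apply, map_zero, add_zero]
        · have h3 : B (if (a : ℕ) + 1 < m ∧ l (a : ℕ) = i then w ((a : ℕ) + 1)
              else 0) (w c) = 0 := by
            by_cases h4 : (a : ℕ) + 1 < m ∧ l (a : ℕ) = i
            · rw [if_pos h4, hBw _ _ (by omega) hc', if_neg (by omega)]
            · rw [if_neg h4, map_zero, LinearMap.zero_apply]
          have h4 : B (w a) (if (c : ℕ) + 1 < m ∧ l (c : ℕ) = i then w ((c : ℕ) + 1) else 0) = 0 := by
            by_cases h5 : (c : ℕ) + 1 < m ∧ l (c : ℕ) = i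
            · rw [if_pos h5, hBw _ _ ha (by omega), if_neg (by omega)]
            · rw [if_neg h5, map_zero]
          rw [h3, h4, add_zero]
      have h2 := congrArg (fun C => C u v) h1
      exact h2

end Pool.Agent.Q61.EX
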