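import Pool.Agent.Q50.EX.Spec

/-! Job J2 of project EX: the top exterior power and duality. -/

namespace Pool.Agent.Q61.EX

open Module Pool.Agent.Q50.EX
open scoped Classical

theorem s2a : S2a := by
  intro K _ W _ _ _ z ξ hξ
  set n := finrank K W with hn
  set b : Basis (Fin n) K W := finBasis K W with hb
  set f : W [⋀^Fin n]→ₗ[K] ExteriorAlgebra K W :=
    (D z).compAlternatingMap (ExteriorAlgebra.ιMulti K n) with hf
  set g : W [⋀^Fin n]→ₗ[K] ExteriorAlgebra K W :=
    LinearMap.trace K W z • ExteriorAlgebra.ιMulti K n with hg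
  have hfg : f = g := by
    refine Basis.ext_alternating b fun v hv => ?_
    have hv' : Function.Bijective v := ⟨hv, Finite.injective_iff_surjective.1 hv⟩
    have h1 : ∀ t : Fin n, ExteriorAlgebra.ιMulti K n
        (Function.update (fun i => b (v i)) t (z (b (v t)))) =
        LinearMap.toMatrix b b z (v t) (v t) • ExteriorAlgebra.ιMulti K n (fun i => b (v i)) := by
      intro t
      have h2 : z (b (v t)) = ∑ s, LinearMap.toMatrix b b z s (v t) • b s := by
        conv_lhs => rw [← b.sum_repr (z (b (v t)))]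
        refine Finset.sum_congr rfl fun s _ => ?_
        rw [LinearMap.toMatrix_apply]
      rw [h2, AlternatingMap.map_update_sum, Finset.sum_eq_single (v t)]
      · rw [AlternatingMap.map_update_smul, Function.update_eq_self]
      · intro s _ hs
        rw [AlternatingMap.map_update_smul]
        obtain ⟨t', ht'⟩ := hv'.2 s
        have hne : t' ≠ t := by
          rintro rfl
          exact hs ht'.symm
        rw [AlternatingMap.map_eq_zero_of_eq _ _ (i := t') (j := t) _ hne, smul_zero]
        rw [Function.update_of_ne hne, Function.update_self, ht']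
      · intro h'; exact absurd (Finset.mem_univ _) h'
    have h3 : f (fun i => b (v i)) = ∑ t, ExteriorAlgebra.ιMulti K n
        (Function.update (fun i => b (v i)) t (z (b (v t)))) := D_ιMulti z _
    rw [h3, Finset.sum_congr rfl fun t _ => h1 t, ← Finset.sum_smul, hg, AlternatingMap.smul_apply]
    congr 1
    rw [LinearMap.trace_eq_matrix_trace K b]
    exact hv'.sum_comp fun s => LinearMap.toMatrix b b z s s
  rw [← pow_span] at hξ
  induction hξ using Submodule.span_induction with
  | mem ξ h =>
    obtain ⟨v, rfl⟩ := h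
    exact congrArg (fun q => q v) hfg
  | zero => rw [map_zero, smul_zero]
  | add x y _ _ hx hy => rw [map_add, hx, hy, smul_add]
  | smul r x _ hx => rw [map_smul, hx, smul_comm]

section duality

variable {K : Type} [Field K] {W : Type} [AddCommGroup W] [Module K W] {n : ℕ}

lemma expand (b : Basis (Fin n) K W) {j : ℕ} {η : ExteriorAlgebra K W} (hη : η ∈ ⋀[K]^j W) :
    ∃ c : Set.powersetCard (Fin n) j → K, η = ∑ t, c t • b.ExteriorAlgebra t.1 := by
  refine ⟨fun t => (b.exteriorPower j).repr ⟨η, hη⟩ t, ?_⟩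
  have h1 := (b.exteriorPower j).sum_repr ⟨η, hη⟩
  have h2 : η = ((∑ i, ((b.exteriorPower j).repr ⟨η, hη⟩) i • (b.exteriorPower j) i :
      ⋀[K]^j W) : ExteriorAlgebra K W) := (congrArg Subtype.val h1).symm
  refine h2.trans ?_
  simp only [AddSubmonoidClass.coe_finsetSum, Submodule.coe_smul]
  refine Finset.sum_congr rfl fun t _ => ?_
  rw [← ExteriorAlgebra.basis_eq_coe_basis]

lemma nondeg (b : Basis (Fin n) K W) {k : ℕ} (hk : k ≤ n) {η : ExteriorAlgebra K W}
    (hη : η ∈ ⋀[K]^(n - k) W) (h : ∀ ξ ∈ ⋀[K]^k W, ξ * η = 0) : η = 0 := by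
  obtain ⟨c, rfl⟩ := expand b hη
  refine Finset.sum_eq_zero fun t _ => ?_
  have ht : t.1.card = n - k := t.2
  set s : Set.powersetCard (Fin n) k := ⟨t.1ᶜ, by
    change (t.1ᶜ).card = k
    rw [Finset.card_compl, Fintype.card_fin, ht]; omega⟩ with hs
  have hmem : b.ExteriorAlgebra s.1 ∈ ⋀[K]^k W := by
    rw [ExteriorAlgebra.basis_eq_coe_basis]
    exact Subtype.property _
  have h1 := h _ hmem
  rw [Finset.mul_sum, Finset.sum_eq_single t] at h1
  · rw [mul_smul_comm] at h1
    have hd : Disjoint s.1 t.1 := disjoint_compl_left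
    rw [ExteriorAlgebra.basis_mul_of_disjoint b s t hd] at h1
    rcases smul_eq_zero.1 h1 with h2 | h2
    · rw [h2, zero_smul]
    · exfalso
      rw [Units.smul_def, ← Int.cast_smul_eq_zsmul K] at h2
      rcases smul_eq_zero.1 h2 with h3 | h3
      · rcases Int.units_eq_one_or (Equiv.Perm.sign (Set.powersetCard.permOfDisjoint hd)) with h4 | h4
        · rw [h4] at h3; simp at h3
        · rw [h4] at h3; simp at h3
      · exact b.ExteriorAlgebra.ne_zero _ h3
  · intro t' _ hne
    rw [mul_smul_comm, ExteriorAlgebra.basis_mul_of_not_disjoint b s t', smul_zero]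
    intro hd
    apply hne
    have hd' : Disjoint (t.1ᶜ) t'.1 := hd
    have h2 : t'.1 ⊆ t.1 := by
      intro i hi
      by_contra hi'
      exact Finset.disjoint_left.1 hd' (Finset.mem_compl.2 hi') hi
    refine Subtype.ext (Finset.eq_of_subset_of_card_le h2 ?_)
    have ht' : t'.1.card = n - k := t'.2
    rw [ht, ht']
  · intro h'; exact absurd (Finset.mem_univ _) h'

lemma top_inj (b : Basis (Fin n) K W) {ζ : ExteriorAlgebra K W}
    (hζ : ζ ∈ ⋀[K]^n W) (h : b.ExteriorAlgebra.coord Finset.univ ζ = 0) : ζ = 0 := by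
  obtain ⟨c, rfl⟩ := expand b hζ
  have ht : ∀ t : Set.powersetCard (Fin n) n, t.1 = Finset.univ := fun t => by
    have h1 : t.1.card = n := t.2
    exact (Finset.card_eq_iff_eq_univ _).1 (by rw [h1, Fintype.card_fin])
  simp only [map_sum, map_smul, ht, Basis.coord_apply, Basis.repr_self, Finsupp.single_eq_same,
    smul_eq_mul, mul_one] at h ⊢
  rw [← Finset.sum_smul, h, zero_smul]

end duality

theorem s2b : S2b := by
  intro K _ W _ _ _ L k hL hk hirr U hU hst
  set n := finrank K W with hn
  set b : Basis (Fin n) K W := finBasis K W with hb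
  have : FiniteDimensional K (ExteriorAlgebra K W) := Module.Finite.of_basis b.ExteriorAlgebra
  set U' : Submodule K (ExteriorAlgebra K W) := 
    { carrier := {ξ | ξ ∈ ⋀[K]^k W ∧ ∀ η ∈ U, ξ * η = 0}
      add_mem' := fun {x y} hx hy => ⟨Submodule.add_mem _ hx.1 hy.1, fun η hη => by
        rw [add_mul, hx.2 η hη, hy.2 η hη, add_zero]⟩
      zero_mem' := ⟨Submodule.zero_mem _, fun η _ => zero_mul _⟩
      smul_mem' := fun r x hx => ⟨Submodule.smul_mem _ r hx.1, fun η hη => by
        rw [smul_mul_assoc, hx.2 η hη, smul_zero]⟩ } with hU'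
  have hmem : ∀ ξ, ξ ∈ U' ↔ ξ ∈ ⋀[K]^k W ∧ ∀ η ∈ U, ξ * η = 0 := fun ξ => Iff.rfl
  rcases hirr U' (fun ξ hξ => hξ.1) (fun x hx ξ hξ => by
    refine ⟨D_mem x hξ.1, fun η hη => ?_⟩
    have h1 := D_mul x ξ η
    rw [hξ.2 η hη, map_zero, hξ.2 _ (hst x hx η hη), add_zero] at h1
    exact h1.symm) with h | h
  · right
    refine Submodule.eq_of_le_of_finrank_le hU ?_
    have h1 : finrank K (⋀[K]^(n - k) W) = finrank K (⋀[K]^k W) := by
      rw [exteriorPower.finrank_eq, exteriorPower.finrank_eq, Nat.choose_symm hk]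
    rw [h1]
    set Φ : ⋀[K]^k W →ₗ[K] Module.Dual K U :=
      { toFun := fun ξ => (b.ExteriorAlgebra.coord Finset.univ).comp
          ((LinearMap.mulLeft K (ξ : ExteriorAlgebra K W)).comp U.subtype)
        map_add' := fun ξ ξ' => by
          refine LinearMap.ext fun η => ?_
          simp only [LinearMap.comp_apply, LinearMap.add_apply, LinearMap.mulLeft_apply,
            Submodule.coe_add, add_mul, map_add]
        map_smul' := fun r ξ => by
          refine LinearMap.ext fun η => ?_
          simp only [LinearMap.comp_apply, LinearMap.smul_apply, LinearMap.mulLeft_apply,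
            Submodule.coe_smul, smul_mul_assoc, map_smul, RingHom.id_apply] } with hΦ
    have hinj : Function.Injective Φ := by
      rw [injective_iff_map_eq_zero]
      intro ξ hξ
      have h2 : (ξ : ExteriorAlgebra K W) ∈ U' := by
        refine ⟨ξ.2, fun η hη => ?_⟩
        refine top_inj b ?_ ?_
        · have h3 : (ξ : ExteriorAlgebra K W) * η ∈ (⋀[K]^k W) * (⋀[K]^(n - k) W) :=
            Submodule.mul_mem_mul ξ.2 (hU hη)
          have h4 : (⋀[K]^k W) * (⋀[K]^(n - k) W) = ⋀[K]^n W := by
            change (LinearMap.range (ExteriorAlgebra.ι K)) ^ k *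
              (LinearMap.range (ExteriorAlgebra.ι K)) ^ (n - k) =
              (LinearMap.range (ExteriorAlgebra.ι K (M := W))) ^ n
            rw [← pow_add, Nat.add_sub_cancel' hk]
          rwa [h4] at h3
        · exact congrArg (fun q => q ⟨η, hη⟩) hξ
      rw [h, Submodule.mem_bot] at h2
      exact Subtype.ext h2
    have h2 := LinearMap.finrank_le_finrank_of_injective hinj
    rwa [Subspace.dual_finrank_eq] at h2
  · left
    rw [eq_bot_iff]
    intro η hη
    rw [Submodule.mem_bot]
    refine nondeg b hk (hU hη) fun ξ hξ => ?_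
    have : ξ ∈ U' := by rw [h]; exact hξ
    exact this.2 η hη

end Pool.Agent.Q61.EX
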