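import Pool.Agent.Q50.EX.Spec
import Pool.Agent.Q50.SR.COrt

/-! Job J10 of project EX: from the Lie algebra to the group. -/

namespace Pool.Agent.Q61.EX

open Module Matrix Pool.Agent.Q50.EX Pool.Agent.Q50.LR Pool.Agent.Q50.SR
open scoped Classical

variable {K : Type} [Field K] [Algebra K ℂ] {n e : ℕ} {c : Fin n → Fin e}

lemma em_tr {σ : Fin e} (i j : Fin (cnt c σ)) (a : ℂ) :
    em c σ (transvection i j a) =
      1 + a • Matrix.single (enm c σ i).1 (enm c σ j).1 (1 : ℂ) := by
  ext p q
  by_cases hp : c p = σ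
  · obtain ⟨k, rfl⟩ := col_ind hp
    by_cases hq : c q = σ
    · obtain ⟨l, rfl⟩ := col_ind hq
      rw [em_in, transvection, Matrix.add_apply, Matrix.add_apply, ← em_one (c := c) (σ := σ),
        em_in, Matrix.smul_apply]
      congr 1
      by_cases h1 : i = k ∧ j = l
      · obtain ⟨rfl, rfl⟩ := h1
        rw [Matrix.single_apply_same, Matrix.single_apply_same, smul_eq_mul, mul_one]
      · rw [Matrix.single_apply_of_ne _ _ _ _ _ h1, Matrix.single_apply_of_ne, smul_zero]
        rintro ⟨h2, h3⟩
        exact h1 ⟨(enm c σ).injective (Subtype.ext h2), (enm c σ).injective (Subtype.ext h3)⟩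
    · rw [em_out' _ k hq, Matrix.add_apply, Matrix.smul_apply, Matrix.single_apply_of_ne,
        smul_zero, add_zero, Matrix.one_apply_ne]
      · rintro rfl
        exact hq hp
      · rintro ⟨_, rfl⟩
        exact hq (enm c σ j).2
  · rw [em_out _ hp, Matrix.add_apply, Matrix.smul_apply, Matrix.single_apply_of_ne, smul_zero,
      add_zero, Matrix.one_apply]
    rintro ⟨rfl, _⟩
    exact hp (enm c σ i).2

lemma em_dg {σ : Fin e} (u : Fin (cnt c σ) → ℂ) :
    em c σ (diagonal fun a => Complex.exp (u a)) = diagonal fun i => Complex.exp (xt c σ u i) := by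
  ext p q
  by_cases hp : c p = σ
  · obtain ⟨k, rfl⟩ := col_ind hp
    by_cases hq : c q = σ
    · obtain ⟨l, rfl⟩ := col_ind hq
      rw [em_in, diagonal_apply, diagonal_apply, xt_in]
      by_cases h : k = l
      · subst h; rw [if_pos rfl, if_pos rfl]
      · rw [if_neg h, if_neg fun h' => h ((enm c σ).injective (Subtype.ext h'))]
    · rw [em_out' _ k hq, diagonal_apply_ne]
      rintro rfl
      exact hq hp
  · rw [em_out _ hp, diagonal_apply, xt_out u hp, Complex.exp_zero]

/-- numbers with product one are exponentials of numbers of sum zero -/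
lemma logs {m : ℕ} (D : Fin m → ℂ) (hD : ∏ a, D a = 1) :
    ∃ u : Fin m → ℂ, (∀ a, Complex.exp (u a) = D a) ∧ ∑ a, u a = 0 := by
  have hne : ∀ a, D a ≠ 0 := fun a h => by
    have := Finset.prod_eq_zero (Finset.mem_univ a) h
    rw [this] at hD
    exact zero_ne_one hD
  rcases Nat.eq_zero_or_pos m with hm | hm
  · subst hm
    exact ⟨fun _ => 0, fun a => a.elim0, by simp⟩
  have h1 : Complex.exp (∑ a, Complex.log (D a)) = 1 := by
    rw [Complex.exp_sum, ← hD]
    exact Finset.prod_congr rfl fun a _ => Complex.exp_log (hne a)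
  obtain ⟨k, hk⟩ := Complex.exp_eq_one_iff.1 h1
  set o : Fin m := ⟨0, hm⟩
  refine ⟨fun a => Complex.log (D a) - (if a = o then (k : ℂ) * (2 * Real.pi * Complex.I) else 0),
    fun a => ?_, ?_⟩
  · by_cases ha : a = o
    · simp only [ha, if_true]
      rw [Complex.exp_sub, Complex.exp_log (hne o), Complex.exp_int_mul_two_pi_mul_I, div_one]
    · simp only [ha, if_false, sub_zero]
      exact Complex.exp_log (hne a)
  · rw [Finset.sum_sub_distrib, Finset.sum_ite_eq' Finset.univ o, if_pos (Finset.mem_univ _), hk,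
      sub_self]

theorem tr_mem {H : Subgroup (GL (Fin n) ℂ)} (hH : IsAlgebraicGroup K H)
    (hL : ∀ Z : Matrix (Fin n) (Fin n) ℂ, Respects c Z →
      (∀ σ, (Z.toSquareBlock c σ).trace = 0) → Z ∈ LC H) {σ : Fin e}
    (t : TransvectionStruct (Fin (cnt c σ)) ℂ) :
    ∃ x ∈ H, (x : Matrix (Fin n) (Fin n) ℂ) = em c σ t.toMatrix := by
  set x : GL (Fin n) ℂ := ⟨em c σ t.toMatrix, em c σ t.inv.toMatrix, by
    rw [← em_mul, t.mul_inv, em_one], by rw [← em_mul, t.inv_mul, em_one]⟩ with hx
  refine ⟨x, ?_, rfl⟩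
  have hij : (enm c σ t.i).1 ≠ (enm c σ t.j).1 := fun h =>
    t.hij ((enm c σ).injective (Subtype.ext h))
  set J : Matrix (Fin n) (Fin n) ℂ := Matrix.single (enm c σ t.i).1 (enm c σ t.j).1 (1 : ℂ) with hJ
  have hJJ : J * J = 0 := Matrix.single_mul_single_of_ne _ _ _ _ hij.symm _
  refine uni hH (J := J) (hL J ?_ ?_) ?_ t.c ?_
  · intro a b hab
    rw [hJ, Matrix.single_apply_of_ne]
    rintro ⟨rfl, rfl⟩
    exact hab ((enm c σ t.i).2.trans (enm c σ t.j).2.symm)
  · intro τ
    refine Finset.sum_eq_zero fun a _ => ?_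
    change J a.1 a.1 = 0
    rw [hJ, Matrix.single_apply_of_ne]
    rintro ⟨h1, h2⟩
    exact hij (h1.trans h2.symm)
  · rw [hJJ, mul_zero]
  · rw [hJJ, smul_zero, add_zero]
    change em c σ t.toMatrix = _
    rw [hJ, ← em_tr]
    rfl

theorem dg_mem {H : Subgroup (GL (Fin n) ℂ)} (hH : IsAlgebraicGroup K H)
    (hL : ∀ Z : Matrix (Fin n) (Fin n) ℂ, Respects c Z →
      (∀ σ, (Z.toSquareBlock c σ).trace = 0) → Z ∈ LC H) {σ : Fin e}
    (D : Fin (cnt c σ) → ℂ) (hD : (diagonal D).det = 1) :
    ∃ x ∈ H, (x : Matrix (Fin n) (Fin n) ℂ) = em c σ (diagonal D) := by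
  rw [det_diagonal] at hD
  obtain ⟨u, hu, hu0⟩ := logs D hD
  have hDu : D = fun a => Complex.exp (u a) := funext fun a => (hu a).symm
  set v := xt c σ u with hv
  set x : GL (Fin n) ℂ := ⟨diagonal fun i => Complex.exp (v i),
    diagonal fun i => Complex.exp (-v i), by
      rw [diagonal_mul_diagonal, ← diagonal_one]
      congr 1
      funext i
      rw [← Complex.exp_add, add_neg_cancel, Complex.exp_zero], by
      rw [diagonal_mul_diagonal, ← diagonal_one]
      congr 1
      funext i
      rw [← Complex.exp_add, neg_add_cancel, Complex.exp_zero]⟩ with hx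
  refine ⟨x, ?_, ?_⟩
  · refine curve hH (Z := diagonal v) (hL _ ?_ ?_)
      (u := fun z => diagonal fun i => Complex.exp (z * v i)) (fun z i j => ?_) ?_ 1 ?_
    · intro a b hab
      rw [diagonal_apply_ne]
      rintro rfl
      exact hab rfl
    · intro τ
      by_cases hτ : τ = σ
      · subst hτ
        have h1 : ((diagonal v).toSquareBlock c τ).trace =
            ∑ a : {i : Fin n // c i = τ}, v a.1 := by
          refine Finset.sum_congr rfl fun a _ => ?_
          change diagonal v a.1 a.1 = v a.1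
          rw [diagonal_apply_eq]
        rw [h1, ← Equiv.sum_comp (enm c τ) fun a => v a.1, ← hu0]
        exact Finset.sum_congr rfl fun a _ => xt_in u a
      · refine Finset.sum_eq_zero fun a _ => ?_
        change diagonal v a.1 a.1 = 0
        rw [diagonal_apply_eq, hv, xt_out]
        rw [a.2]; exact hτ
    · rw [diagonal_mul_diagonal]
      by_cases hij : i = j
      · subst hij
        simp only [diagonal_apply_eq]
        have h1 : HasDerivAt (fun z : ℂ => z * v i) (v i) z := by
          simpa using (hasDerivAt_id z).mul_const (v i)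
        have h2 := h1.cexp
        rwa [mul_comm] at h2
      · simp only [diagonal_apply_ne _ hij]
        exact hasDerivAt_const z 0
    · simp only [zero_mul, Complex.exp_zero, diagonal_one]
    · simp only [one_mul]
      rfl
  · change diagonal (fun i => Complex.exp (v i)) = _
    rw [hDu, em_dg]

theorem s10 : S10 := by
  intro K _ _ n e c H hH hL g hB hdet
  have hP : ∀ σ (M : Matrix (Fin (cnt c σ)) (Fin (cnt c σ)) ℂ), M.det = 1 →
      ∃ x ∈ H, (x : Matrix (Fin n) (Fin n) ℂ) = em c σ M := by
    intro σ M hM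
    refine diagonal_transvection_induction
      (fun A => ∃ x ∈ H, (x : Matrix (Fin n) (Fin n) ℂ) = em c σ A) M (fun D hD => ?_)
      (fun t => tr_mem hH hL t) ?_
    · exact dg_mem hH hL D (hD.trans hM)
    · rintro A B ⟨x, hx, hx'⟩ ⟨y, hy, hy'⟩
      exact ⟨x * y, mul_mem hx hy, by rw [Units.val_mul, hx', hy', em_mul]⟩
  -- the blocks
  let bl : ∀ σ, Matrix (Fin (cnt c σ)) (Fin (cnt c σ)) ℂ := fun σ a b =>
    (g : Matrix (Fin n) (Fin n) ℂ) (enm c σ a).1 (enm c σ b).1
  have hbl : ∀ σ, (bl σ).det = 1 := by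
    intro σ
    have h1 : bl σ =
        ((g : Matrix (Fin n) (Fin n) ℂ).toSquareBlock c σ).submatrix (enm c σ) (enm c σ) := rfl
    rw [h1, Matrix.det_submatrix_equiv_self, hdet]
  have key : ∀ s : Finset (Fin e), ∃ h ∈ H, ∀ i j, (h : Matrix (Fin n) (Fin n) ℂ) i j =
      if c i ∈ s then (g : Matrix (Fin n) (Fin n) ℂ) i j else
        (1 : Matrix (Fin n) (Fin n) ℂ) i j := by
    intro s
    induction s using Finset.induction_on with
    | empty => exact ⟨1, one_mem _, fun i j => by rw [if_neg (Finset.notMem_empty _)]; rfl⟩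
    | insert σ s hσ ih =>
      obtain ⟨h, hh, hh'⟩ := ih
      obtain ⟨x, hx, hx'⟩ := hP σ (bl σ) (hbl σ)
      refine ⟨x * h, mul_mem hx hh, fun i j => ?_⟩
      rw [Units.val_mul, hx']
      by_cases hi : c i = σ
      · obtain ⟨a, rfl⟩ := col_ind hi
        rw [em_mul_in, if_pos (by rw [hi]; exact Finset.mem_insert_self _ _)]
        have h1 : ∀ b, (h : Matrix (Fin n) (Fin n) ℂ) (enm c σ b).1 j =
            (1 : Matrix (Fin n) (Fin n) ℂ) (enm c σ b).1 j := fun b => by
          rw [hh', if_neg]
          rw [(enm c σ b).2]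
          exact hσ
        simp only [h1]
        by_cases hj : c j = σ
        · obtain ⟨b, rfl⟩ := col_ind hj
          rw [Finset.sum_eq_single b]
          · rw [one_apply_eq, mul_one]
          · intro k _ hk
            rw [one_apply_ne fun h => hk ((enm c σ).injective (Subtype.ext h)), mul_zero]
          · intro h
            exact absurd (Finset.mem_univ _) h
        · rw [hB _ j fun h => hj (h.symm.trans hi)]
          refine Finset.sum_eq_zero fun b _ => ?_
          rw [one_apply_ne, mul_zero]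
          intro h0
          exact hj (by rw [← h0]; exact (enm c σ b).2)
      · rw [em_mul_out _ _ hi, hh']
        have h1 : c i ∈ insert σ s ↔ c i ∈ s := by
          rw [Finset.mem_insert]
          exact ⟨fun h => h.resolve_left hi, Or.inr⟩
        simp only [h1]
  obtain ⟨h, hh, hh'⟩ := key Finset.univ
  have h1 : h = g := by
    refine Units.ext ?_
    ext i j
    rw [hh', if_pos (Finset.mem_univ _)]
  rwa [← h1]

end Pool.Agent.Q61.EX
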